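import Pool.Agent.Helper74.DIH.D5
import Pool.Agent.Helper68.NW.LinSys

set_option autoImplicit false

namespace Pool.Agent.Helper74.DIH

open Pool.Agent.Helper52.Wq2 Pool.Agent.Helper61.NW

universe u

/-- **D1.** -/
theorem d1 : D1Stmt.{u} := by
  intro V G X H ψ m n hH hX hadj hle hfin hn hn0 hm hper hc htr
  have hne : Nonempty V := by
    have h0 : {v | 0 ≤ X v ∧ X v < H}.Nonempty := by
      rw [Set.nonempty_iff_ne_empty]
      intro h
      rw [h, Set.ncard_empty] at hn
      omega
    exact ⟨h0.some⟩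
  refine Pool.Agent.Helper68.NW.lsys_of G X H ψ m hH hm hX hadj
    (fun u v h => by rw [abs_sub_comm]; exact hle u v h) n hfin
    (by rw [← hn]; exact Nat.card_coe_set_eq _) hne hc ?_ ?_
  · intro u v
    obtain ⟨f, e, he, hj, hx⟩ := htr u v
    exact ⟨f, e, he, hx, hj⟩
  · obtain ⟨f, hf⟩ := hper
    exact ⟨f, fun w => by rw [zpow_natCast]; exact hf w⟩

end Pool.Agent.Helper74.DIH
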