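import Pool.Agent.Helper74.DIH.Goals

/-!
# Project NW+, packet DIH: assembly
-/

set_option autoImplicit false

namespace Pool.Agent.Helper74.DIH

open Pool.Agent.Helper52.Wq2 Pool.Agent.Helper61.NW
open scoped Nat

universe u

section

variable {Γ : Type u} [Group Γ]

/-- The step. -/
noncomputable def stp (ε : Γ →* ℤˣ) (p q : Γ) (hpq : ε p = ε q) : Equiv.Perm Γ := by
  classical
  exact
  { toFun := fun g => if ε g = 1 then g * p else g * q
    invFun := fun g => if ε (g * p⁻¹) = 1 then g * p⁻¹ else g * q⁻¹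
    left_inv := by
      intro g
      by_cases hg : ε g = 1
      · simp [hg]
      · have h1 : ε (g * q * p⁻¹) ≠ 1 := by
          rw [map_mul, map_mul, map_inv, hpq, mul_assoc, mul_inv_cancel, mul_one]; exact hg
        simp only [hg, if_false, h1, mul_inv_cancel_right]
    right_inv := by
      intro g
      by_cases hg : ε (g * p⁻¹) = 1
      · simp [hg]
      · have h1 : ε (g * q⁻¹) ≠ 1 := by
          rw [map_mul, map_inv, ← hpq, ← map_inv, ← map_mul]; exact hg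
        simp only [hg, if_false, h1, inv_mul_cancel_right] }

theorem stp_pos {ε : Γ →* ℤˣ} {p q : Γ} (hpq : ε p = ε q) {g : Γ} (hg : ε g = 1) :
    stp ε p q hpq g = g * p := by
  simp [stp, hg]

theorem stp_neg {ε : Γ →* ℤˣ} {p q : Γ} (hpq : ε p = ε q) {g : Γ} (hg : ε g = -1) :
    stp ε p q hpq g = g * q := by
  have : ε g ≠ 1 := by rw [hg]; decide
  simp [stp, this]

/-- Left multiplication as an automorphism of the Cayley graph. -/
def lmul (S : Set Γ) (x : Γ) : cay S ≃g cay S where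
  toEquiv := Equiv.mulLeft x
  map_rel_iff' := by
    intro a b
    simp only [cay, SimpleGraph.fromRel_adj, Equiv.coe_mulLeft, ne_eq, mul_right_inj, mul_inv_rev]
    have e : ∀ a b : Γ, a⁻¹ * x⁻¹ * (x * b) = a⁻¹ * b := by intro a b; group
    rw [e, e]

theorem adj_mul {S : Set Γ} (hS : IsGen S) {u : Γ} (hu : u ∈ S) (g : Γ) :
    (cay S).Adj g (g * u) := by
  rw [cay, SimpleGraph.fromRel_adj]
  refine ⟨?_, Or.inl ?_⟩
  · intro h
    have : u = 1 := mul_eq_left.1 h.symm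
    exact hS.2.2 (this ▸ hu)
  · rw [inv_mul_cancel_left]; exact hu

theorem adj_cases {S : Set Γ} (hS : IsGen S) {v w : Γ} (h : (cay S).Adj v w) :
    ∃ u ∈ S, w = v * u := by
  rw [cay, SimpleGraph.fromRel_adj] at h
  rcases h.2 with h1 | h1
  · exact ⟨v⁻¹ * w, h1, by group⟩
  · refine ⟨v⁻¹ * w, ?_, by group⟩
    have := hS.2.1 _ h1
    rwa [mul_inv_rev, inv_inv] at this

theorem cay_univ {S : Set Γ} (hS : IsGen S) : Conn (cay S) Set.univ := by
  refine ⟨⟨1, trivial⟩, ?_⟩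
  intro A _ ⟨a, ha⟩ hA x _
  have key : ∀ g ∈ Subgroup.closure S, ∀ y ∈ A, y * g ∈ A ∧ y * g⁻¹ ∈ A := by
    intro g hg
    induction hg using Subgroup.closure_induction with
    | mem s hs => exact fun y hy => ⟨hA y hy _ trivial (adj_mul hS hs y),
        hA y hy _ trivial (adj_mul hS (hS.2.1 s hs) y)⟩
    | one => intro y hy; rw [inv_one, mul_one]; exact ⟨hy, hy⟩
    | mul g₁ g₂ _ _ h1 h2 =>
      intro y hy
      rw [mul_inv_rev, ← mul_assoc, ← mul_assoc]
      exact ⟨(h2 _ (h1 y hy).1).1, (h1 _ (h2 y hy).2).2⟩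
    | inv g _ h1 => intro y hy; rw [inv_inv]; exact ⟨(h1 y hy).2, (h1 y hy).1⟩
  have := (key (a⁻¹ * x) (by rw [hS.1]; trivial) a ha).1
  rwa [mul_inv_cancel_left] at this

theorem stp_pow_pos {ε : Γ →* ℤˣ} {p q : Γ} (hpq : ε p = ε q) (hp : ε p = 1) (k : ℕ) {g : Γ}
    (hg : ε g = 1) : (stp ε p q hpq ^ k) g = g * p ^ k := by
  induction k with
  | zero => simp
  | succ k ih =>
    rw [pow_succ', Equiv.Perm.mul_apply, ih, stp_pos hpq (by simp [hg, hp]), pow_succ, mul_assoc]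

theorem stp_pow_neg {ε : Γ →* ℤˣ} {p q : Γ} (hpq : ε p = ε q) (hp : ε p = 1) (k : ℕ) {g : Γ}
    (hg : ε g = -1) : (stp ε p q hpq ^ k) g = g * q ^ k := by
  have hq : ε q = 1 := hpq ▸ hp
  induction k with
  | zero => simp
  | succ k ih =>
    rw [pow_succ', Equiv.Perm.mul_apply, ih, stp_neg hpq (by simp [hg, hq]), pow_succ, mul_assoc]

theorem stp_two_pos {ε : Γ →* ℤˣ} {p q : Γ} (hpq : ε p = ε q) (hp : ε p = -1) (k : ℕ) {g : Γ}
    (hg : ε g = 1) : (stp ε p q hpq ^ (2 * k)) g = g * (p * q) ^ k := by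
  have hq : ε q = -1 := hpq ▸ hp
  induction k with
  | zero => simp
  | succ k ih =>
    have e1 : stp ε p q hpq (g * (p * q) ^ k) = g * (p * q) ^ k * p :=
      stp_pos hpq (by simp [hg, hp, hq])
    have e2 : stp ε p q hpq (g * (p * q) ^ k * p) = g * (p * q) ^ k * p * q :=
      stp_neg hpq (by simp [hg, hp, hq])
    rw [show 2 * (k + 1) = 2 * k + 1 + 1 by ring, pow_succ', pow_succ', Equiv.Perm.mul_apply,
      Equiv.Perm.mul_apply, ih, e1, e2, pow_succ]
    simp only [mul_assoc]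

theorem stp_two_neg {ε : Γ →* ℤˣ} {p q : Γ} (hpq : ε p = ε q) (hp : ε p = -1) (k : ℕ) {g : Γ}
    (hg : ε g = -1) : (stp ε p q hpq ^ (2 * k)) g = g * (q * p) ^ k := by
  have hq : ε q = -1 := hpq ▸ hp
  induction k with
  | zero => simp
  | succ k ih =>
    have e1 : stp ε p q hpq (g * (q * p) ^ k) = g * (q * p) ^ k * q :=
      stp_neg hpq (by simp [hg, hp, hq])
    have e2 : stp ε p q hpq (g * (q * p) ^ k * q) = g * (q * p) ^ k * q * p :=
      stp_pos hpq (by simp [hg, hp, hq])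
    rw [show 2 * (k + 1) = 2 * k + 1 + 1 by ring, pow_succ', pow_succ', Equiv.Perm.mul_apply,
      Equiv.Perm.mul_apply, ih, e1, e2, pow_succ]
    simp only [mul_assoc]

/-- Left multiplication by an element of sign `1` commutes with the step. -/
theorem stp_lmul {ε : Γ →* ℤˣ} {p q : Γ} (hpq : ε p = ε q) {c : Γ} (hc : ε c = 1) (x : Γ) :
    c * stp ε p q hpq x = stp ε p q hpq (c * x) := by
  rcases Int.units_eq_one_or (ε x) with hx | hx
  · rw [stp_pos hpq hx, stp_pos hpq (by simp [hc, hx]), mul_assoc]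
  · rw [stp_neg hpq hx, stp_neg hpq (by simp [hc, hx]), mul_assoc]

theorem stp_lmul_neg {ε : Γ →* ℤˣ} {p q : Γ} (hpq : ε p = ε q) (hp : ε p = 1) (hq : q = p⁻¹)
    {c : Γ} (hc : ε c = -1) (x : Γ) :
    c * stp ε p q hpq x = (stp ε p q hpq)⁻¹ (c * x) := by
  rw [Equiv.Perm.eq_inv_iff_eq]
  have hq1 : ε q = 1 := hpq ▸ hp
  rcases Int.units_eq_one_or (ε x) with hx | hx
  · rw [stp_pos hpq hx, stp_neg hpq (by simp [hc, hx, hp]), hq]; group
  · rw [stp_neg hpq hx, stp_pos hpq (by simp [hc, hx, hq1]), hq]; group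

end

theorem le_aux {k n m : ℕ} (hk : k ≤ n) (hm : m ≤ k ! * k) (hn : 0 < n) :
    2 * m ≤ 2 * (n ! * (n * n)) := by
  have h1 : k ! * k ≤ n ! * n := Nat.mul_le_mul (Nat.factorial_le hk) hk
  have h2 : n ! * n ≤ n ! * (n * n) := Nat.mul_le_mul le_rfl (Nat.le_mul_of_pos_left n hn)
  omega

/-- **DIH** from its parts. -/
theorem d5 (d1 : D1Stmt.{u}) (d2 : D2Stmt.{u}) (d3 : D3Stmt.{u}) (d4 : D4Stmt.{u}) :
    DihStmt.{u} := by
  intro Γ _ ε h S D hS hfin
  obtain ⟨y₀, H, p, q, hH, hp, hq, hcase, hXp, hXq, hbd⟩ := d3 Γ ε h S D hS hfin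
  have hpq : ε p = ε q := by
    rcases hcase with ⟨h1, h2⟩ | ⟨h1, h2⟩
    · rw [h2, map_inv, h1, inv_one]
    · rw [h1, h2]
  have hX : ∀ g u, 4 * h (g * u) + (ε (g * u) : ℤ) * y₀ = 4 * h g + (ε g : ℤ) * y₀ +
      (ε g : ℤ) * (4 * h u + ((ε u : ℤ) - 1) * y₀) := by
    intro g u
    rw [D.coc, map_mul, Units.val_mul]; ring
  have hstep : ∀ g, 4 * h (stp ε p q hpq g) + (ε (stp ε p q hpq g) : ℤ) * y₀ =
      4 * h g + (ε g : ℤ) * y₀ + H := by
    intro g
    rcases Int.units_eq_one_or (ε g) with hg | hg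
    · rw [stp_pos hpq hg, hX, hXp, hg]; simp
    · rw [stp_neg hpq hg, hX, hXq, hg]; simp
  obtain ⟨hR, hK, hK0⟩ := d4 Γ ε h D y₀ H (stp ε p q hpq) hH hstep
  obtain ⟨m, hm0, hm, hf⟩ : ∃ m : ℕ, 0 < m ∧
      m ≤ 2 * (({g | 0 ≤ 4 * h g + (ε g : ℤ) * y₀ ∧ 4 * h g + (ε g : ℤ) * y₀ < H}.ncard) ! *
        ({g | 0 ≤ 4 * h g + (ε g : ℤ) * y₀ ∧ 4 * h g + (ε g : ℤ) * y₀ < H}.ncard *
        {g | 0 ≤ 4 * h g + (ε g : ℤ) * y₀ ∧ 4 * h g + (ε g : ℤ) * y₀ < H}.ncard)) ∧
      ∃ f : cay S ≃g cay S, ∀ v, f v = (stp ε p q hpq ^ m) v := by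
    rcases hcase with ⟨h1, h2⟩ | ⟨h1, h2⟩
    · obtain ⟨m, hm0, hm, hc⟩ := d2 Γ ε h D p h1
      refine ⟨m, hm0, ?_, lmul S (p ^ m), ?_⟩
      · have := le_aux hK hm (by omega)
        omega
      · intro v
        change p ^ m * v = _
        rw [hc]
        rcases Int.units_eq_one_or (ε v) with hv | hv
        · rw [stp_pow_pos hpq h1 m hv, hv]; simp
        · rw [stp_pow_neg hpq h1 m hv, hv, h2]; simp
    · obtain ⟨m, hm0, hm, hc⟩ := d2 Γ ε h D (p * q) (by rw [map_mul, h1, h2]; rfl)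
      refine ⟨2 * m, by omega, le_aux hK hm (by omega), lmul S ((p * q) ^ m), ?_⟩
      intro v
      change (p * q) ^ m * v = _
      rcases Int.units_eq_one_or (ε v) with hv | hv
      · rw [stp_two_pos hpq h1 m hv, hc, hv]; simp
      · rw [stp_two_neg hpq h1 m hv, hc, hv]
        have e1 : (q * p) ^ m = p⁻¹ * ((p * q) ^ m * p) := by
          have h3 : ∀ k : ℕ, p * (q * p) ^ k = (p * q) ^ k * p := by
            intro k
            induction k with
            | zero => simp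
            | succ k ih => rw [pow_succ, ← mul_assoc, ih, pow_succ]; simp only [mul_assoc]
          rw [← h3, inv_mul_cancel_left]
        rw [e1, hc, h1, inv_mul_cancel_left]
  have hadj : ∀ v, (cay S).Adj v (stp ε p q hpq v) := by
    intro v
    rcases Int.units_eq_one_or (ε v) with hv | hv
    · rw [stp_pos hpq hv]; exact adj_mul hS hp v
    · rw [stp_neg hpq hv]; exact adj_mul hS hq v
  have hnear : ∀ v w, (cay S).Adj v w → |(4 * h w + (ε w : ℤ) * y₀) -
      (4 * h v + (ε v : ℤ) * y₀)| ≤ H := by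
    intro v w hvw
    obtain ⟨u, hu, rfl⟩ := adj_cases hS hvw
    have h1 := hbd u hu
    rw [hX v u, add_sub_cancel_left, abs_mul]
    have : |((ε v : ℤˣ) : ℤ)| = 1 := by
      rcases Int.units_eq_one_or (ε v) with hv | hv <;> rw [hv] <;> simp
    rw [this, one_mul]; exact h1
  have htr : ∀ v w : Γ, ∃ (f : cay S ≃g cay S) (e : ℤ), (e = 1 ∨ e = -1) ∧
      (∃ j : ℤ, f v = (stp ε p q hpq ^ j) w) ∧
      ∀ x, f (stp ε p q hpq x) = (stp ε p q hpq ^ e) (f x) := by
    intro v w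
    by_cases hvw : ε w = ε v
    · refine ⟨lmul S (w * v⁻¹), 1, Or.inl rfl, ⟨0, ?_⟩, ?_⟩
      · change w * v⁻¹ * v = _
        simp
      · intro x
        rw [zpow_one]
        have h3 : ε (w * v⁻¹) = 1 := by rw [map_mul, map_inv, hvw, mul_inv_cancel]
        exact stp_lmul hpq h3 x
    · have hneg : ε (w * v⁻¹) = -1 := by
        rcases Int.units_eq_one_or (ε (w * v⁻¹)) with h1 | h1
        · exfalso; apply hvw
          rw [map_mul, map_inv, mul_inv_eq_one] at h1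
          exact h1
        · exact h1
      rcases hcase with ⟨h1, h2⟩ | ⟨h1, h2⟩
      · refine ⟨lmul S (w * v⁻¹), -1, Or.inr rfl, ⟨0, ?_⟩, ?_⟩
        · change w * v⁻¹ * v = _
          simp
        · intro x
          rw [zpow_neg_one]
          exact stp_lmul_neg hpq h1 h2 hneg x
      · have hε : ε (stp ε p q hpq w) = - ε w := by
          rcases Int.units_eq_one_or (ε w) with hw | hw
          · rw [stp_pos hpq hw, map_mul, h1]; simp
          · rw [stp_neg hpq hw, map_mul, h2]; simp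
        refine ⟨lmul S (stp ε p q hpq w * v⁻¹), 1, Or.inl rfl, ⟨1, ?_⟩, ?_⟩
        · change stp ε p q hpq w * v⁻¹ * v = _
          simp
        · intro x
          rw [zpow_one]
          have h3 : ε (stp ε p q hpq w * v⁻¹) = 1 := by
            rw [map_mul, hε, neg_mul, ← map_mul, hneg, neg_neg]
          exact stp_lmul hpq h3 x
  obtain ⟨G', hL, hI⟩ := d1 Γ (cay S) (fun g => 4 * h g + (ε g : ℤ) * y₀) H (stp ε p q hpq) m _
    hH hstep hadj hnear hR rfl (by omega) hm0 hf (cay_univ hS) htr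
  exact ⟨_, m, G', hm, hL, hI⟩

end Pool.Agent.Helper74.DIH
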