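import Pool.Agent.Helper61.NW.Goals2

/-!
# Project NW+, packet DIH: the parts
-/

set_option autoImplicit false

namespace Pool.Agent.Helper74.DIH

open Pool.Agent.Helper52.Wq2 Pool.Agent.Helper61.NW
open scoped Nat

universe u

/-- **D1.** Proof. Every `ψ`-orbit has exactly one element `r` with `0 ≤ X r < H`; coordinates
`(a, k) ↦ (ψ ^ a) (r k)`, `a = ⌊X v / H⌋`; `G'` is the comap. `f (ψ ^ a (r k)) = ψ ^ (e a) (f (r k))`,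
`f (r k) = ψ ^ (c k) (r (τ k))`. -/
def D1Stmt : Prop := ∀ (V : Type u) (G : SimpleGraph V) (X : V → ℤ) (H : ℤ) (ψ : Equiv.Perm V)
  (m n : ℕ), 0 < H → (∀ v, X (ψ v) = X v + H) → (∀ v, G.Adj v (ψ v)) →
  (∀ v w, G.Adj v w → |X w - X v| ≤ H) → {v | 0 ≤ X v ∧ X v < H}.Finite →
  {v | 0 ≤ X v ∧ X v < H}.ncard = n → 0 < n → 0 < m →
  (∃ f : G ≃g G, ∀ v, f v = (ψ ^ m) v) → Conn G Set.univ →
  (∀ v w : V, ∃ (f : G ≃g G) (e : ℤ), (e = 1 ∨ e = -1) ∧ (∃ j : ℤ, f v = (ψ ^ j) w) ∧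
    ∀ x, f (ψ x) = (ψ ^ e) (f x)) →
  ∃ G' : SimpleGraph (ℤ × Fin n), Lsys n m G' ∧ Nonempty (G ≃g G')

/-- **D2.** Proof. `K = {ε = 1, h = 0}` is a finite normal subgroup, `a = |K| !`: `s ^ a` commutes with
`K` (conjugation by `s` is an element of `Perm K`), `γ⁻¹ s ^ a γ = k s ^ (ε γ * a)` with `k ∈ K`;
`m = a |K|`. (`h (x⁻¹) = - ε x * h x`.) -/
def D2Stmt : Prop := ∀ (Γ : Type u) [Group Γ] (ε : Γ →* ℤˣ) (h : Γ → ℤ), Dh ε h →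
  ∀ s : Γ, ε s = 1 → ∃ m : ℕ, 0 < m ∧
    m ≤ ({g | ε g = 1 ∧ h g = 0} : Set Γ).ncard ! * ({g | ε g = 1 ∧ h g = 0} : Set Γ).ncard ∧
    ∀ γ : Γ, s ^ m * γ = γ * s ^ ((ε γ : ℤ) * (m : ℤ))

/-- **D3.** Selection. `X u - y₀ = 4 h u + (ε u - 1) y₀`.

Proof. There are `u ∈ S` with `ε u = -1`; `t`, `r` those with maximal and minimal `h`,
`y₀ = h t + h r`. Case 2 if `2 (h t - h r)` is positive and `≥ 4 |h u|` for all `u ∈ S` with `ε u = 1`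
(`p = t`, `q = r`); otherwise `p` with `|h p|` maximal among `ε = 1` (or its inverse), `q = p⁻¹`; if
everything is `0`, all `x` satisfy (`ε x = 1 → h x = 0`) and (`ε x = -1 → h x = h t`), against `unb`. -/
def D3Stmt : Prop := ∀ (Γ : Type u) [Group Γ] (ε : Γ →* ℤˣ) (h : Γ → ℤ) (S : Set Γ), Dh ε h →
  IsGen S → S.Finite → ∃ (y₀ H : ℤ) (p q : Γ), 0 < H ∧ p ∈ S ∧ q ∈ S ∧
    ((ε p = 1 ∧ q = p⁻¹) ∨ (ε p = -1 ∧ ε q = -1)) ∧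
    4 * h p + ((ε p : ℤ) - 1) * y₀ = H ∧ 4 * h q + ((ε q : ℤ) - 1) * y₀ = -H ∧
    ∀ u ∈ S, |4 * h u + ((ε u : ℤ) - 1) * y₀| ≤ H

/-- **D4.** Proof. The sets `{ε = ± 1, h = k}` are finite (translates of `K`); `K` is mapped by `ψ ^ j` to
`{0 ≤ X < H}`, with `0 ≤ y₀ + j H < H`. -/
def D4Stmt : Prop := ∀ (Γ : Type u) [Group Γ] (ε : Γ →* ℤˣ) (h : Γ → ℤ), Dh ε h →
  ∀ (y₀ H : ℤ) (ψ : Equiv.Perm Γ), 0 < H →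
  (∀ g, 4 * h (ψ g) + (ε (ψ g) : ℤ) * y₀ = 4 * h g + (ε g : ℤ) * y₀ + H) →
  {g | 0 ≤ 4 * h g + (ε g : ℤ) * y₀ ∧ 4 * h g + (ε g : ℤ) * y₀ < H}.Finite ∧
  ({g | ε g = 1 ∧ h g = 0} : Set Γ).ncard ≤
    {g | 0 ≤ 4 * h g + (ε g : ℤ) * y₀ ∧ 4 * h g + (ε g : ℤ) * y₀ < H}.ncard ∧
  0 < ({g | ε g = 1 ∧ h g = 0} : Set Γ).ncard

end Pool.Agent.Helper74.DIH
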